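import Pool.Agent.W500.CS.Stm

set_option autoImplicit false

open MeasureTheory Polynomial Metric Set Filter Topology
open scoped ComplexConjugate

namespace Pool.Agent.W52.CQ.ARCV

open Pool.Agent.W500.CS

theorem main : S_CURVE → S_EV → S_SEP → S_ARCV := by
  intro hCURVE hEV hSEP r R U B h hR hU hD hB h0 hder γ hγ hγ0 hγ1
  have hBan : ∀ i, AnalyticAt ℝ (B i) (γ 0) := by
    intro i
    rw [hγ0]
    exact ((hB i).analyticAt (isOpen_ball.mem_nhds (mem_ball_self hR))).restrictScalars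
  have hψan : ∀ i, AnalyticAt ℝ (fun q => (B i (γ q) * deriv γ q).re) 0 := by
    intro i
    have h1 : AnalyticAt ℝ (fun q => B i (γ q)) 0 := (hBan i).comp hγ
    have h2 : AnalyticAt ℝ (fun q => B i (γ q) * deriv γ q) 0 := h1.mul hγ.deriv
    exact (Complex.reCLM.analyticAt _).comp h2
  obtain ⟨ε1, hε1, han1, hsep1⟩ := hSEP r (fun i q => (B i (γ q) * deriv γ q).re) hψan
  have hev1 : ∀ᶠ q in 𝓝 (0 : ℝ), AnalyticAt ℝ γ q := hγ.eventually_analyticAt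
  have hev2 : ∀ᶠ q in 𝓝 (0 : ℝ), γ q ∈ ball (0 : ℂ) R :=
    hγ.continuousAt.eventually (by rw [hγ0]; exact isOpen_ball.mem_nhds (mem_ball_self hR))
  have hev3 : ∀ᶠ q in 𝓝[≠] (0 : ℝ), γ q ≠ 0 :=
    hγ.differentiableAt.hasDerivAt.eventually_ne hγ1
  rw [eventually_nhdsWithin_iff] at hev3
  obtain ⟨ε2, hε2, H2⟩ := Metric.eventually_nhds_iff.1 (hev1.and (hev2.and hev3))
  have H2' : ∀ q ∈ Ioo (0 : ℝ) ε2, AnalyticAt ℝ γ q ∧ γ q ∈ ball (0 : ℂ) R \ {0} := by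
    intro q hq
    have h3 := H2 (y := q) (by rw [Real.dist_eq, sub_zero, abs_of_pos hq.1]; exact hq.2)
    exact ⟨h3.1, h3.2.1, fun h4 => h3.2.2 (ne_of_gt hq.1) h4⟩
  set b : ℝ := min ε1 ε2 with hb
  have hb0 : 0 < b := lt_min hε1 hε2
  have hb1 : b ≤ ε1 := min_le_left _ _
  have hb2 : b ≤ ε2 := min_le_right _ _
  obtain ⟨hsc, hri⟩ := hCURVE r _ U B hD γ 0 b (fun t ht =>
    ⟨(H2' t ⟨ht.1, lt_of_lt_of_le ht.2 hb2⟩).2, (H2' t ⟨ht.1, lt_of_lt_of_le ht.2 hb2⟩).1.contDiffAt⟩)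
  have hcont : ∀ i, ContinuousOn ((fun i q => (B i (γ q) * deriv γ q).re) i) (Ioo 0 b) := by
    intro i t ht
    exact ((han1 i t ⟨by linarith [ht.1], lt_of_lt_of_le ht.2 hb1⟩).continuousAt).continuousWithinAt
  have hsep : Sep 0 b (fun i q => (B i (γ q) * deriv γ q).re) := by
    intro i j
    rcases hsep1 i j with h1 | h1 | h1
    · exact Or.inl (fun t ht => h1 t ⟨ht.1, lt_of_lt_of_le ht.2 hb1⟩)
    · exact Or.inr (Or.inl (fun t ht => h1 t ⟨ht.1, lt_of_lt_of_le ht.2 hb1⟩))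
    · exact Or.inr (Or.inr (fun t ht => h1 t ⟨ht.1, lt_of_lt_of_le ht.2 hb1⟩))
  obtain ⟨i, ε, hε, hεb, hH⟩ := hEV r b (fun t => U (γ t)) (fun i q => (B i (γ q) * deriv γ q).re)
    hb0 hsc hcont hsep hri
  refine ⟨i, ε, hε, ?_⟩
  have hin : ∀ q ∈ Ioo (0 : ℝ) ε, AnalyticAt ℝ γ q ∧ γ q ∈ ball (0 : ℂ) R \ {0} := fun q hq =>
    H2' q ⟨hq.1, lt_of_lt_of_le hq.2 (hεb.trans hb2)⟩
  have hhre : ∀ q ∈ Ioo (0 : ℝ) ε,
      HasDerivAt (fun q => (h i (γ q)).re) ((B i (γ q) * deriv γ q).re) q := by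
    intro q hq
    have h1 : HasDerivAt γ (deriv γ q) q := (hin q hq).1.differentiableAt.hasDerivAt
    have h2 : HasDerivAt (h i ∘ γ) (B i (γ q) * deriv γ q) q :=
      HasDerivAt.comp q (hder i (γ q) (hin q hq).2.1) h1
    exact Complex.reCLM.hasFDerivAt.comp_hasDerivAt q h2
  have hDer : ∀ q ∈ Ioo (0 : ℝ) ε,
      HasDerivAt (fun q => U (γ q) - (h i (γ q)).re) 0 q := by
    intro q hq
    have h1 := (hH q hq).sub (hhre q hq)
    simp only [sub_self] at h1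
    exact h1
  have hconst : ∀ q ∈ Ioo (0 : ℝ) ε, ∀ q' ∈ Ioo (0 : ℝ) ε,
      U (γ q) - (h i (γ q)).re = U (γ q') - (h i (γ q')).re := by
    intro q hq q' hq'
    exact isOpen_Ioo.is_const_of_deriv_eq_zero (isPreconnected_Ioo)
      (fun x hx => (hDer x hx).differentiableAt.differentiableWithinAt)
      (fun x hx => (hDer x hx).deriv) hq hq'
  have hlim : Tendsto (fun q => U (γ q) - (h i (γ q)).re) (𝓝[>] (0 : ℝ)) (𝓝 (U 0)) := by
    have h1 : Tendsto γ (𝓝 0) (𝓝 0) := by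
      have h2 := hγ.continuousAt.tendsto
      rw [hγ0] at h2
      exact h2
    have h2 : Tendsto (fun q => U (γ q)) (𝓝 0) (𝓝 (U 0)) := hU.tendsto.comp h1
    have h3 : Tendsto (fun q => h i (γ q)) (𝓝 0) (𝓝 0) := by
      have h4 := (hder i 0 (mem_ball_self hR)).continuousAt.tendsto
      rw [h0 i] at h4
      exact h4.comp h1
    have h5 : Tendsto (fun q => (h i (γ q)).re) (𝓝 0) (𝓝 0) := by
      have h6 := (Complex.continuous_re.tendsto (0 : ℂ)).comp h3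
      rw [Complex.zero_re] at h6
      exact h6
    have h7 := h2.sub h5
    rw [sub_zero] at h7
    exact h7.mono_left nhdsWithin_le_nhds
  intro q hq
  refine ⟨(hin q hq).2, ?_, hH q hq⟩
  have h8 : Tendsto (fun q => U (γ q) - (h i (γ q)).re) (𝓝[>] (0 : ℝ))
      (𝓝 (U (γ q) - (h i (γ q)).re)) := by
    refine tendsto_const_nhds.congr' ?_
    filter_upwards [Ioo_mem_nhdsGT hε] with x hx
    exact hconst q hq x hx
  have h9 := tendsto_nhds_unique hlim h8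
  linarith

end Pool.Agent.W52.CQ.ARCV
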